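import Pool.Agent.D0H19.SM.Stm

/-! Module CLSK of project SM (helper19): the Chinese remainder theorem for places of a number field. -/

set_option autoImplicit false

open NumberField

namespace Pool.Agent.D0H41.SM2

open IsDedekindDomain (HeightOneSpectrum)
open Pool.Agent.D0H19.SM

theorem t_CLSK : S_CLSK := by
  intro K _ _ ι _ v hv
  have := Fintype.ofFinite ι
  classical
  refine ⟨∏ i, Ideal.absNorm (v i).asIdeal, ?_, ?_⟩
  · refine Finset.prod_pos fun i _ => Nat.pos_of_ne_zero fun h => ?_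
    exact (v i).ne_bot (Ideal.absNorm_eq_zero_iff.1 h)
  intro b δ hδ
  obtain ⟨M, hM⟩ := (Set.finite_range (fun i => -WithZero.log (δ i))).bddAbove
  set t : ℕ := M.toNat + 1 with ht
  have htl : ∀ i, WithZero.exp (-(t : ℤ)) < δ i := by
    intro i
    have h1 : -WithZero.log (δ i) ≤ M := hM ⟨i, rfl⟩
    rw [← WithZero.exp_log (hδ i).ne', WithZero.exp_lt_exp]
    have h2 := Int.self_le_toNat M
    push_cast [ht]
    omega
  obtain ⟨c, hc⟩ := IsDedekindDomain.exists_forall_sub_mem_ideal (s := (Finset.univ : Finset ι))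
    (fun i => (v i).asIdeal) (fun _ => t) (fun i _ => (v i).prime)
    (fun i _ j _ hij h => hij (hv (HeightOneSpectrum.ext h))) (fun i => b i)
  refine ⟨t, c, fun a ha i => ?_⟩
  refine lt_of_le_of_lt ?_ (htl i)
  rw [HeightOneSpectrum.valuation_of_algebraMap]
  rw [HeightOneSpectrum.intValuation_le_pow_iff_mem]
  have h1 : a - b i = (a - c) + (c - b i) := by ring
  rw [h1]
  refine Ideal.add_mem _ ?_ (hc i (Finset.mem_univ i))
  obtain ⟨x, hx⟩ := ha
  rw [hx]
  refine Ideal.mul_mem_right _ _ ?_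
  rw [Nat.cast_pow]
  refine Ideal.pow_mem_pow ?_ t
  obtain ⟨y, hy⟩ := Finset.dvd_prod_of_mem (fun i => Ideal.absNorm (v i).asIdeal) (Finset.mem_univ i)
  rw [hy, Nat.cast_mul]
  exact Ideal.mul_mem_right _ _ (Ideal.absNorm_mem _)

end Pool.Agent.D0H41.SM2
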